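import Pool.Agent.Y718.FQ.Vals
import Pool.Agent.Results.MP_c40b92_nt.CubicEquations

/-!
# Archimedean unit balls and smooth quartic double covers

Let `k` be a number field and let `σ : k → ℂ` be an embedding whose image is not contained in `ℝ`
(for a totally complex field this is every embedding). A *block* is an affine space over `k`, or the
set of the points `(w, z₁, …, z_n)` with coordinates in `k` and `w ≠ 0` of a double cover
`w² = f(z₁, …, z_n)`, where `n ≥ 2` and `f` is a polynomial of degree at most four such that the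
quartic hypersurface defined by it in `ℙⁿ` is smooth.

We consider finite unions `D` of sets of the following two kinds: the sets
`{x | ∃ z ∈ kⁿ, f(x, z) = 0}` with `f` over `k` of total degree at most three (see
`CubicEquations`), and the sets of the values of a rational function at the points of a product of
blocks. If `D` is contained in the closed unit ball `B = {x ∈ k | |σ(x)| ≤ 1}`, then the sets of the
second kind are finite; the union is thin, the set of the inverses of its nonzero elements is thin,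
and for every bound there is a larger integer `m` such that `1/m` is not in `D`. In particular `B` is
not a union of this kind.

The proof for the second kind. The ball is flat: a rational function in one variable over `k` all of
whose values are in the ball is constant. On the generic line through a point `P` of the double
cover, which is a curve of genus one over the field `k(e)` of rational functions, one takes the
points `P + 2ⁱ D`, `D` the difference of `P` and its conjugate. A rational function on the double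
cover with values in a flat set has constant values at these points. There is a place of `k(e)` at
which `2 D` specializes to zero, so all these values are the value at `P`, and the function is
constant.
-/

set_option autoImplicit false

namespace Pool.Agent.Results.MP_c40b92_nt.QuarticDoubleCovers

open MvPolynomial Pool.Agent.TH783.CE Pool.Agent.TH783.UB

/-- A block: an affine space over `K`, or the set of the points `y = (w, z₁, …, z_n)` with
coordinates in `K` and `w ≠ 0` of a double cover `w² = F(1, z₁, …, z_n)`, where `n ≥ 2` and `F` is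
a form of degree four over `K` such that the hypersurface `F = 0` in `ℙⁿ` is smooth. The vector
`(1, z₁, …, z_n)` is `Function.update y 0 1`. -/
def Block {K : Type} [Field K] {n : ℕ} (S : Set (Fin (n + 1) → K)) : Prop :=
  S = Set.univ ∨ (2 ≤ n ∧ ∃ F : MvPolynomial (Fin (n + 1)) K, F.IsHomogeneous 4 ∧
    (∀ y : Fin (n + 1) → AlgebraicClosure K, (∀ i, aeval y (pderiv i F) = 0) → y = 0) ∧
    S = {y | y 0 ^ 2 = eval (Function.update y 0 1) F ∧ y 0 ≠ 0})

/-- The values of `p / q` at the points `x = (x₁, …, x_r)` with `x_j ∈ S_j` for all `j` and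
`q(x) ≠ 0`. -/
def values {K : Type} [Field K] {r : ℕ} {n : Fin r → ℕ} (S : ∀ j, Set (Fin (n j + 1) → K))
    (p q : MvPolynomial ((j : Fin r) × Fin (n j + 1)) K) : Set K :=
  {t | ∃ x : (j : Fin r) × Fin (n j + 1) → K, (∀ j, (fun i => x ⟨j, i⟩) ∈ S j) ∧
    eval x q ≠ 0 ∧ t = eval x p / eval x q}

/-- A finite union of sets of the two kinds. -/
def Union {k : Type} [Field k] {r l : ℕ} (n : Fin r → ℕ) (f : ∀ i, MvPolynomial (Fin (n i + 1)) k)
    (s : Fin l → ℕ) (d : ∀ i, Fin (s i) → ℕ) (S : ∀ i, ∀ j, Set (Fin (d i j + 1) → k))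
    (p q : ∀ i, MvPolynomial ((j : Fin (s i)) × Fin (d i j + 1)) k) : Set k :=
  {x | (∃ i, ∃ z : Fin (n i) → k, eval (Fin.cons x z : Fin (n i + 1) → k) (f i) = 0) ∨
    ∃ i, x ∈ values (S i) (p i) (q i)}

theorem result :
    -- the closed unit ball is not such a union
    (∀ (k : Type) [Field k] [NumberField k] (σ : k →+* ℂ), (∃ z : k, (σ z).im ≠ 0) →
      ∀ (r l : ℕ) (n : Fin r → ℕ) (f : ∀ i, MvPolynomial (Fin (n i + 1)) k),
      (∀ i, (f i).totalDegree ≤ 3) →
      ∀ (s : Fin l → ℕ) (d : ∀ i, Fin (s i) → ℕ) (S : ∀ i, ∀ j, Set (Fin (d i j + 1) → k)),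
      (∀ i j, Block (S i j)) →
      ∀ p q : ∀ i, MvPolynomial ((j : Fin (s i)) × Fin (d i j + 1)) k,
      Union n f s d S p q ≠ {x : k | ‖σ x‖ ≤ 1}) ∧
    -- such unions in the ball
    (∀ (k : Type) [Field k] [NumberField k] (σ : k →+* ℂ), (∃ z : k, (σ z).im ≠ 0) →
      ∀ (r l : ℕ) (n : Fin r → ℕ) (f : ∀ i, MvPolynomial (Fin (n i + 1)) k),
      (∀ i, (f i).totalDegree ≤ 3) →
      ∀ (s : Fin l → ℕ) (d : ∀ i, Fin (s i) → ℕ) (S : ∀ i, ∀ j, Set (Fin (d i j + 1) → k)),
      (∀ i j, Block (S i j)) →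
      ∀ p q : ∀ i, MvPolynomial ((j : Fin (s i)) × Fin (d i j + 1)) k,
      Union n f s d S p q ⊆ {x : k | ‖σ x‖ ≤ 1} →
      (∀ i, (values (S i) (p i) (q i)).Finite) ∧
      Thin (Union n f s d S p q) ∧
      Thin {x : k | x ≠ 0 ∧ x⁻¹ ∈ Union n f s d S p q} ∧
      ∀ B : ℤ, ∃ m : ℤ, B < m ∧ (m : k)⁻¹ ∉ Union n f s d S p q) := by
  have main : ∀ (k : Type) [Field k] [NumberField k] (σ : k →+* ℂ), (∃ z : k, (σ z).im ≠ 0) →
      ∀ (r l : ℕ) (n : Fin r → ℕ) (f : ∀ i, MvPolynomial (Fin (n i + 1)) k),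
      (∀ i, (f i).totalDegree ≤ 3) →
      ∀ (s : Fin l → ℕ) (d : ∀ i, Fin (s i) → ℕ) (S : ∀ i, ∀ j, Set (Fin (d i j + 1) → k)),
      (∀ i j, Block (S i j)) →
      ∀ p q : ∀ i, MvPolynomial ((j : Fin (s i)) × Fin (d i j + 1)) k,
      Union n f s d S p q ⊆ {x : k | ‖σ x‖ ≤ 1} →
      (∀ i, (values (S i) (p i) (q i)).Finite) ∧
      Thin (Union n f s d S p q) ∧
      Thin {x : k | x ≠ 0 ∧ x⁻¹ ∈ Union n f s d S p q} ∧
      ∀ B : ℤ, ∃ m : ℤ, B < m ∧ (m : k)⁻¹ ∉ Union n f s d S p q := by
    rintro k _ _ σ ⟨w, hw⟩ r l n f hf s d S hS p q h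
    have hfin : ∀ i, (values (S i) (p i) (q i)).Finite := fun i =>
      Pool.Agent.Y718.FQ.fin_vals (flat_ball σ hw) σ (hS i) _ _
        fun t ht => h (Or.inr ⟨i, ht⟩)
    have hfU : (⋃ i, values (S i) (p i) (q i)).Finite := Set.finite_iUnion hfin
    obtain ⟨h1, h2, -⟩ := CubicEquations.result.2 k σ ⟨w, hw⟩ r n f hf fun x hx => h (Or.inl hx)
    have hthin : Thin (Union n f s d S p q) := by
      refine (h1.union (Thin.of_finite hfU)).mono ?_
      rintro x (hx | ⟨i, hx⟩)
      · exact Or.inl hx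
      · exact Or.inr (Set.mem_iUnion.2 ⟨i, hx⟩)
    have hthin' : Thin {x : k | x ≠ 0 ∧ x⁻¹ ∈ Union n f s d S p q} := by
      refine (h2.union (Thin.of_finite (hfU.image fun x => x⁻¹))).mono ?_
      rintro x ⟨hx0, hx | ⟨i, hx⟩⟩
      · exact Or.inl ⟨hx0, hx⟩
      · exact Or.inr ⟨x⁻¹, Set.mem_iUnion.2 ⟨i, hx⟩, inv_inv x⟩
    refine ⟨hfin, hthin, hthin', fun B => ?_⟩
    obtain ⟨m, hm, hm'⟩ := hthin'.exists_int (max B 0)
    refine ⟨m, (le_max_left _ _).trans_lt hm, fun h3 => hm' ⟨?_, h3⟩⟩
    exact Int.cast_ne_zero.2 ((le_max_right _ _).trans_lt hm).ne'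
  refine ⟨fun k _ _ σ hσ r l n f hf s d S hS p q heq => ?_, main⟩
  obtain ⟨-, -, -, h2⟩ := main k σ hσ r l n f hf s d S hS p q heq.subset
  obtain ⟨m, hm, hm'⟩ := h2 1
  refine hm' ?_
  rw [heq]
  show ‖σ (m : k)⁻¹‖ ≤ 1
  rw [map_inv₀, map_intCast, norm_inv]
  refine inv_le_one_of_one_le₀ ?_
  rw [Complex.norm_intCast]
  exact_mod_cast (hm.le.trans (le_abs_self m))

end Pool.Agent.Results.MP_c40b92_nt.QuarticDoubleCovers
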